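import Pool.Agent.K1H79.Q3.StmA

/-!
# Task Q3-5 (helper79): the Burgess inequality in a finite ring
-/

set_option autoImplicit false

noncomputable section

namespace Pool.Agent.K1H43.Q3

open Finset Pool.Agent.K1H79.Q3
open scoped QuadraticAlgebra Classical

/-! ## Hölder -/

theorem hol {ι : Type} [Fintype ι] (r : ℕ) (hr : 1 ≤ r) (f g : ι → ℝ) (hf : ∀ i, 0 ≤ f i)
    (hg : ∀ i, 0 ≤ g i) : (∑ x, f x * g x) ^ (2 * r) ≤
      (∑ x, f x) ^ (2 * r - 2) * (∑ x, (f x) ^ 2) * ∑ x, g x ^ (2 * r) := by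
  have hW : 0 ≤ ∑ x, f x := sum_nonneg fun i _ => hf i
  have h1 : (∑ x, f x * g x) ^ r ≤ (∑ x, f x) ^ (r - 1) * ∑ x, f x * g x ^ r := by
    rcases hW.eq_or_lt with h0 | hpos
    · have hz : ∀ x, f x = 0 := by
        intro x
        exact (Finset.sum_eq_zero_iff_of_nonneg (fun i _ => hf i)).1 h0.symm x (mem_univ x)
      simp only [hz, zero_mul, sum_const_zero, mul_zero]
      rw [zero_pow (by omega)]
    · have hj := Real.pow_arith_mean_le_arith_mean_pow (univ : Finset ι)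
        (fun x => f x / ∑ y, f y) g (fun i _ => div_nonneg (hf i) hW)
        (by rw [← sum_div, div_self hpos.ne']) (fun i _ => hg i) r
      have e1 : (∑ i, f i / (∑ y, f y) * g i) = (∑ x, f x * g x) / ∑ y, f y := by
        rw [sum_div]; exact sum_congr rfl fun i _ => by ring
      have e2 : (∑ i, f i / (∑ y, f y) * g i ^ r) = (∑ x, f x * g x ^ r) / ∑ y, f y := by
        rw [sum_div]; exact sum_congr rfl fun i _ => by ring
      rw [e1, e2, div_pow, div_le_div_iff₀ (by positivity) hpos] at hj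
      have e3 : (∑ y, f y) ^ r = (∑ y, f y) ^ (r - 1) * ∑ y, f y := by
        rw [← pow_succ]; congr 1; omega
      rw [e3] at hj
      have : (∑ x, f x * g x) ^ r * ∑ y, f y ≤
          ((∑ x, f x) ^ (r - 1) * ∑ x, f x * g x ^ r) * ∑ y, f y := by
        calc _ ≤ _ := hj
          _ = _ := by ring
      exact le_of_mul_le_mul_right this hpos
  have h0 : 0 ≤ (∑ x, f x * g x) ^ r := by
    refine pow_nonneg (sum_nonneg fun i _ => mul_nonneg (hf i) (hg i)) _
  have h2 : (∑ x, f x * g x ^ r) ^ 2 ≤ (∑ x, (f x) ^ 2) * ∑ x, (g x ^ r) ^ 2 :=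
    Finset.sum_mul_sq_le_sq_mul_sq _ _ _
  have h3 : ∀ x, (g x ^ r) ^ 2 = g x ^ (2 * r) := fun x => by rw [← pow_mul]; ring_nf
  calc (∑ x, f x * g x) ^ (2 * r) = ((∑ x, f x * g x) ^ r) ^ 2 := by rw [← pow_mul]; ring_nf
    _ ≤ ((∑ x, f x) ^ (r - 1) * ∑ x, f x * g x ^ r) ^ 2 := pow_le_pow_left₀ h0 h1 2
    _ = (∑ x, f x) ^ (2 * r - 2) * (∑ x, f x * g x ^ r) ^ 2 := by
        rw [mul_pow, ← pow_mul]; congr 2; omega
    _ ≤ (∑ x, f x) ^ (2 * r - 2) * ((∑ x, (f x) ^ 2) * ∑ x, (g x ^ r) ^ 2) :=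
        mul_le_mul_of_nonneg_left h2 (pow_nonneg hW _)
    _ = _ := by simp only [h3]; ring

/-! ## The norm -/

theorem nm_sub_le (x y : E) : nm (x - y) ≤ 2 * nm x + 2 * nm y := by
  have h : ((nm (x - y) : ℕ) : ℤ) + (nm (x + y) : ℕ) = 2 * (nm x : ℕ) + 2 * (nm y : ℕ) := by
    rw [nm_cast, nm_cast, nm_cast, nm_cast]
    simp only [QuadraticAlgebra.re_sub, QuadraticAlgebra.im_sub, QuadraticAlgebra.re_add,
      QuadraticAlgebra.im_add]
    ring
  omega

theorem prime_of_nm {a : E} (h : (nm a).Prime) : Prime a := by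
  rw [← irreducible_iff_prime]
  constructor
  · intro hu
    rw [isUnit_iff'] at hu
    exact h.one_lt.ne' hu
  · intro x y hxy
    rw [hxy, nm_mul] at h
    rcases Nat.prime_mul_iff.1 h with ⟨_, h1⟩ | ⟨_, h1⟩
    · right; exact isUnit_iff'.2 h1
    · left; exact isUnit_iff'.2 h1

theorem nm_dvd {a b : E} (h : a ∣ b) : nm a ∣ nm b := by
  obtain ⟨c, rfl⟩ := h
  rw [nm_mul]
  exact dvd_mul_right _ _

/-! ## The boundary -/

theorem shift_sum (f : E → ℝ) (hf : ∀ z, |f z| ≤ 1) (T : ℕ) (w : E) :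
    |∑ z ∈ EB T, f (z + w) - ∑ z ∈ EB T, f z| ≤
      2 + (((EB T).filter fun z => T < nm (z + w)).card : ℝ) +
        (((EB T).filter fun z => T < nm (z - w)).card : ℝ) := by
  have h1 : ∑ z ∈ EB T, f (z + w) = ∑ u ∈ (EB T).image (· + w), f u := by
    rw [sum_image]
    intro x _ y _ h
    exact add_right_cancel h
  rw [h1, ← sum_sdiff_sub_sum_sdiff]
  have h2 : ∀ s : Finset E, |∑ x ∈ s, f x| ≤ (s.card : ℝ) := by
    intro s
    refine (abs_sum_le_sum_abs _ _).trans ?_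
    calc ∑ i ∈ s, |f i| ≤ ∑ _i ∈ s, (1 : ℝ) := sum_le_sum fun i _ => hf i
      _ = s.card := by simp
  have h3 : ((EB T).image (· + w) \ EB T).card ≤ ((EB T).filter fun z => T < nm (z + w)).card + 1 := by
    have hs : (EB T).image (· + w) \ EB T ⊆
        insert 0 (((EB T).filter fun z => T < nm (z + w)).image (· + w)) := by
      intro u hu
      rw [mem_sdiff, mem_image] at hu
      obtain ⟨⟨z, hz, rfl⟩, hu⟩ := hu
      rw [mem_insert]
      by_cases h0 : z + w = 0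
      · exact Or.inl h0
      · right
        rw [mem_image]
        refine ⟨z, mem_filter.2 ⟨hz, ?_⟩, rfl⟩
        by_contra hcon
        exact hu (mem_EB.2 ⟨h0, not_lt.1 hcon⟩)
    refine (card_le_card hs).trans ((card_insert_le _ _).trans ?_)
    exact Nat.add_le_add_right card_image_le 1
  have h4 : (EB T \ (EB T).image (· + w)).card ≤ ((EB T).filter fun z => T < nm (z - w)).card + 1 := by
    have hs : EB T \ (EB T).image (· + w) ⊆
        insert w ((EB T).filter fun z => T < nm (z - w)) := by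
      intro u hu
      rw [mem_sdiff] at hu
      obtain ⟨hz, hu⟩ := hu
      rw [mem_insert]
      by_cases h0 : u - w = 0
      · exact Or.inl (sub_eq_zero.1 h0)
      · right
        refine mem_filter.2 ⟨hz, ?_⟩
        by_contra hcon
        apply hu
        rw [mem_image]
        exact ⟨u - w, mem_EB.2 ⟨h0, not_lt.1 hcon⟩, sub_add_cancel u w⟩
    exact (card_le_card hs).trans (card_insert_le _ _)
  have h3' : (((EB T).image (· + w) \ EB T).card : ℝ) ≤
      (((EB T).filter fun z => T < nm (z + w)).card : ℝ) + 1 := by exact_mod_cast h3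
  have h4' : ((EB T \ (EB T).image (· + w)).card : ℝ) ≤
      (((EB T).filter fun z => T < nm (z - w)).card : ℝ) + 1 := by exact_mod_cast h4
  refine (abs_sub _ _).trans ?_
  have h5 := h2 ((EB T).image (· + w) \ EB T)
  have h6 := h2 (EB T \ (EB T).image (· + w))
  linarith

/-! ## Fibres -/

theorem sum_fib {α R : Type} [Fintype R] (s : Finset α) (g : α → R) (G : R → ℝ) :
    ∑ y ∈ s, G (g y) = ∑ x : R, ((s.filter fun y => g y = x).card : ℝ) * G x := by
  rw [← sum_fiberwise s g]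
  refine sum_congr rfl fun x _ => ?_
  rw [sum_congr rfl (g := fun _ => G x) (fun y hy => by rw [(mem_filter.1 hy).2]), sum_const,
    nsmul_eq_mul]

/-! ## Counting pairs -/

/-- the pairs `(z, z')` with `a z' = b z` -/
theorem pairs_card (hE : S_ECT) {T p p' : ℕ} {a b : E} (hp : p.Prime) (hp' : p'.Prime)
    (ha : nm a = p) (hb : nm b = p') (Q : Finset (E × E)) (hQ : ∀ y ∈ Q, y.1 ∈ EB T ∧ y.2 ∈ EB T ∧
      b * y.1 = a * y.2) (hab : p = p' → a = b) :
    (Q.card : ℝ) ≤ 12 * T * (if p = p' then 1 else if p' < p then 1 / (p : ℝ) else 1 / (p' : ℝ)) := by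
  have ha0 : a ≠ 0 := by
    rintro rfl
    rw [nm_zero] at ha
    exact hp.ne_zero ha.symm
  have hb0 : b ≠ 0 := by
    rintro rfl
    rw [nm_zero] at hb
    exact hp'.ne_zero hb.symm
  have inj1 : Set.InjOn (fun y : E × E => y.1) (Q : Set (E × E)) := by
    intro y hy y' hy' h
    have e1 := (hQ y hy).2.2
    have e2 := (hQ y' hy').2.2
    have h' : y.1 = y'.1 := h
    rw [h'] at e1
    exact Prod.ext h (mul_left_cancel₀ ha0 (e1.symm.trans e2))
  have inj2 : Set.InjOn (fun y : E × E => y.2) (Q : Set (E × E)) := by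
    intro y hy y' hy' h
    have e1 := (hQ y hy).2.2
    have e2 := (hQ y' hy').2.2
    have h' : y.2 = y'.2 := h
    rw [h'] at e1
    exact Prod.ext (mul_left_cancel₀ hb0 (e1.trans e2.symm)) h
  have hdvd : ∀ {a b z z' : E} {p p' : ℕ}, p.Prime → p'.Prime → nm a = p → nm b = p' → p ≠ p' →
      b * z = a * z' → a ∣ z := by
    intro a b z z' p p' hp hp' ha hb hne h
    have hpa : Prime a := prime_of_nm (ha ▸ hp)
    rcases hpa.dvd_or_dvd (show a ∣ b * z from ⟨z', h⟩) with h1 | h1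
    · have h2 := nm_dvd h1
      rw [ha, hb] at h2
      exact absurd ((Nat.prime_dvd_prime_iff_eq hp hp').1 h2) hne
    · exact h1
  split_ifs with h1 h2
  · rw [mul_one]
    have h3 : Q.card ≤ (EB T).card := by
      rw [← card_image_of_injOn inj1]
      apply card_le_card
      intro z hz
      obtain ⟨y, hy, rfl⟩ := mem_image.1 hz
      exact (hQ y hy).1
    calc (Q.card : ℝ) ≤ (EB T).card := by exact_mod_cast h3
      _ ≤ 12 * T := hE.1 T
  · have h3 : Q.card ≤ ((EB T).filter fun z => a ∣ z).card := by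
      rw [← card_image_of_injOn inj1]
      apply card_le_card
      intro z hz
      obtain ⟨y, hy, rfl⟩ := mem_image.1 hz
      exact mem_filter.2 ⟨(hQ y hy).1, hdvd hp hp' ha hb h1 (hQ y hy).2.2⟩
    calc (Q.card : ℝ) ≤ ((EB T).filter fun z => a ∣ z).card := by exact_mod_cast h3
      _ ≤ 12 * (T / nm a) := hE.2.2.2.1 T a ha0
      _ = _ := by rw [ha]; ring
  · have h3 : Q.card ≤ ((EB T).filter fun z => b ∣ z).card := by
      rw [← card_image_of_injOn inj2]
      apply card_le_card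
      intro z hz
      obtain ⟨y, hy, rfl⟩ := mem_image.1 hz
      exact mem_filter.2 ⟨(hQ y hy).2.1, hdvd hp' hp hb ha (Ne.symm h1) (hQ y hy).2.2.symm⟩
    calc (Q.card : ℝ) ≤ ((EB T).filter fun z => b ∣ z).card := by exact_mod_cast h3
      _ ≤ 12 * (T / nm b) := hE.2.2.2.1 T b hb0
      _ = _ := by rw [hb]; ring

theorem kernel_sum (P : Finset ℕ) (hP : ∀ p ∈ P, p.Prime) :
    ∑ p ∈ P, ∑ p' ∈ P, (if p = p' then (1 : ℝ) else if p' < p then 1 / (p : ℝ) else 1 / (p' : ℝ)) ≤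
      3 * P.card := by
  have h1 : ∀ p ∈ P, ∑ p' ∈ P, (if p' < p then 1 / (p : ℝ) else 0) ≤ 1 := by
    intro p hp
    have hp0 : (0 : ℝ) < p := by exact_mod_cast (hP p hp).pos
    rw [← sum_filter, sum_const, nsmul_eq_mul, mul_one_div, div_le_one hp0]
    have : P.filter (fun p' => p' < p) ⊆ range p := fun x hx => mem_range.2 (mem_filter.1 hx).2
    exact_mod_cast (card_le_card this).trans (card_range p).le
  have h2 : ∀ p ∈ P, ∀ p' ∈ P,
      (if p = p' then (1 : ℝ) else if p' < p then 1 / (p : ℝ) else 1 / (p' : ℝ)) ≤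
      (if p = p' then (1 : ℝ) else 0) + (if p' < p then 1 / (p : ℝ) else 0) +
        (if p < p' then 1 / (p' : ℝ) else 0) := by
    intro p _ p' _
    split_ifs <;> first | omega | simp
  calc _ ≤ ∑ p ∈ P, ∑ p' ∈ P, ((if p = p' then (1 : ℝ) else 0) +
        (if p' < p then 1 / (p : ℝ) else 0) + (if p < p' then 1 / (p' : ℝ) else 0)) :=
        sum_le_sum fun p hp => sum_le_sum fun p' hp' => h2 p hp p' hp'
    _ = ∑ p ∈ P, ∑ p' ∈ P, (if p = p' then (1 : ℝ) else 0) +
        ∑ p ∈ P, ∑ p' ∈ P, (if p' < p then 1 / (p : ℝ) else 0) +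
        ∑ p ∈ P, ∑ p' ∈ P, (if p < p' then 1 / (p' : ℝ) else 0) := by
        simp only [sum_add_distrib]
    _ ≤ P.card + P.card + P.card := by
        refine add_le_add (add_le_add ?_ ?_) ?_
        · apply le_of_eq
          rw [sum_congr rfl (g := fun _ => (1 : ℝ)) (fun p hp => by
            rw [sum_ite_eq, if_pos hp])]
          simp
        · calc _ ≤ ∑ _p ∈ P, (1 : ℝ) := sum_le_sum h1
            _ = P.card := by simp
        · rw [sum_comm]
          calc _ ≤ ∑ _p ∈ P, (1 : ℝ) := sum_le_sum h1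
            _ = P.card := by simp
    _ = _ := by ring

/-! ## The second moment -/

theorem second_moment (hE : S_ECT) {R : Type} [CommRing R] [Fintype R] (Φ : E →+* R) (q : ℕ)
    (hΦ : ∀ z : E, Φ z = 0 → z ≠ 0 → q ≤ nm z) (P : Finset ℕ) (a : ℕ → E) (A T : ℕ)
    (hP : ∀ p ∈ P, p.Prime ∧ p ≤ A ∧ nm (a p) = p ∧ IsUnit (Φ (8 * a p)))
    (hAT : 16 * A * T < q) (v : ℕ → R) (hv : ∀ p ∈ P, Φ (8 * a p) * v p = 1) :
    ∑ x : R, ((((P ×ˢ EB T).filter fun y => v y.1 * Φ y.2 = x).card : ℝ)) ^ 2 ≤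
      36 * T * P.card := by
  have key : ∀ p ∈ P, ∀ p' ∈ P,
      ((((EB T) ×ˢ (EB T)).filter fun y => v p' * Φ y.2 = v p * Φ y.1).card : ℝ) ≤
      12 * T * (if p = p' then 1 else if p' < p then 1 / (p : ℝ) else 1 / (p' : ℝ)) := by
    intro p hp p' hp'
    obtain ⟨h1, h2, h3, h4⟩ := hP p hp
    obtain ⟨h1', h2', h3', _⟩ := hP p' hp'
    refine pairs_card hE h1 h1' h3 h3' _ ?_ (fun h => by rw [h])
    intro y hy
    rw [mem_filter, mem_product] at hy
    obtain ⟨⟨hy1, hy2⟩, hy3⟩ := hy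
    refine ⟨hy1, hy2, ?_⟩
    by_contra hne
    have hD : a p' * y.1 - a p * y.2 ≠ 0 := sub_ne_zero.2 hne
    have e1 : Φ (8 * a p) * Φ y.2 = Φ (8 * a p') * Φ y.1 := by
      calc Φ (8 * a p) * Φ y.2 = Φ (8 * a p) * (Φ (8 * a p') * v p') * Φ y.2 := by
            rw [hv p' hp', mul_one]
        _ = Φ (8 * a p) * Φ (8 * a p') * (v p' * Φ y.2) := by ring
        _ = Φ (8 * a p) * Φ (8 * a p') * (v p * Φ y.1) := by rw [hy3]
        _ = (Φ (8 * a p) * v p) * Φ (8 * a p') * Φ y.1 := by ring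
        _ = _ := by rw [hv p hp, one_mul]
    have e2 : Φ 8 * Φ (a p' * y.1 - a p * y.2) = 0 := by
      have e3 : Φ 8 * Φ (a p' * y.1 - a p * y.2) =
          Φ (8 * a p') * Φ y.1 - Φ (8 * a p) * Φ y.2 := by
        rw [← map_mul, ← map_mul, ← map_mul, ← map_sub]
        congr 1
        ring
      rw [e3, e1, sub_self]
    have h8 : IsUnit (Φ 8) := by
      rw [map_mul] at h4
      exact isUnit_of_mul_isUnit_left h4
    have e4 : Φ (a p' * y.1 - a p * y.2) = 0 := (h8.mul_right_eq_zero).1 e2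
    have h5 := hΦ _ e4 hD
    have h6 := nm_sub_le (a p' * y.1) (a p * y.2)
    rw [nm_mul, nm_mul, h3, h3'] at h6
    have h7 := (mem_EB.1 hy1).2
    have h8 := (mem_EB.1 hy2).2
    have h9 : p' * nm y.1 ≤ A * T := Nat.mul_le_mul h2' h7
    have h10 : p * nm y.2 ≤ A * T := Nat.mul_le_mul h2 h8
    nlinarith
  set ν : R → ℝ := fun x => (((P ×ˢ EB T).filter fun y => v y.1 * Φ y.2 = x).card : ℝ) with hν
  have e1 : ∑ x : R, ν x ^ 2 = ∑ y ∈ P ×ˢ EB T, ν (v y.1 * Φ y.2) := by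
    rw [sum_fib (P ×ˢ EB T) (fun y => v y.1 * Φ y.2) ν]
    exact sum_congr rfl fun x _ => by rw [pow_two]
  have e2 : ∑ y ∈ P ×ˢ EB T, ν (v y.1 * Φ y.2) = ∑ p ∈ P, ∑ p' ∈ P,
      ((((EB T) ×ˢ (EB T)).filter fun y => v p' * Φ y.2 = v p * Φ y.1).card : ℝ) := by
    rw [sum_product]
    refine sum_congr rfl fun p _ => ?_
    simp only [hν, natCast_card_filter, sum_product]
    rw [sum_comm]
  rw [e1, e2]
  calc _ ≤ ∑ p ∈ P, ∑ p' ∈ P,
        12 * T * (if p = p' then (1 : ℝ) else if p' < p then 1 / (p : ℝ) else 1 / (p' : ℝ)) :=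
        sum_le_sum fun p hp => sum_le_sum fun p' hp' => key p hp p' hp'
    _ = 12 * T * ∑ p ∈ P, ∑ p' ∈ P,
        (if p = p' then (1 : ℝ) else if p' < p then 1 / (p : ℝ) else 1 / (p' : ℝ)) := by
        rw [mul_sum]
        exact sum_congr rfl fun p _ => by rw [mul_sum]
    _ ≤ 12 * T * (3 * P.card) :=
        mul_le_mul_of_nonneg_left (kernel_sum P fun p hp => (hP p hp).1) (by positivity)
    _ = _ := by ring

theorem nm_nat (b : ℕ) : nm (b : E) = b ^ 2 := by
  have h := nm_cast (b : E)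
  simp at h
  exact_mod_cast h

theorem nm_eight : nm (8 : E) = 64 := by
  have h := nm_nat 8
  simpa using h

/-- **Task Q3-5.** -/
theorem t_BGof : S_BGof := by
  intro hE r hr
  obtain ⟨C1, hC1, h1⟩ := hE.2.1
  obtain ⟨C2, hC2, h2⟩ := hE.2.2.1
  refine ⟨2 + 65 * (C1 + C2) + 36, by positivity, ?_⟩
  intro R _ _ Φ X q hXm hX1 hΦ P a A B T hP hPne hB hT hAT ψ hψ hψ1
  have hv : ∀ p ∈ P, ∃ v : R, Φ (8 * a p) * v = 1 := fun p hp => (hP p hp).2.2.2.exists_right_inv
  choose! v hv using hv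
  set f : E → ℝ := fun z => ψ z * X (Φ z) with hfdef
  have hf : ∀ z, |f z| ≤ 1 := by
    intro z
    rw [hfdef, abs_mul]
    exact mul_le_one₀ (hψ1 z) (abs_nonneg _) (hX1 _)
  set G : R → ℝ := fun x => |∑ b ∈ range B, X (x + (b : R))| with hG
  have hG0 : ∀ x, 0 ≤ G x := fun x => abs_nonneg _
  set M : ℝ := ∑ x : R, G x ^ (2 * r) with hM
  have hM0 : 0 ≤ M := sum_nonneg fun x _ => pow_nonneg (hG0 x) _
  set S : ℝ := ∑ z ∈ EB T, f z with hS
  have hB1 : (1 : ℝ) ≤ B := by exact_mod_cast hB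
  have hT1 : (1 : ℝ) ≤ T := by exact_mod_cast hT
  obtain ⟨p0, hp0⟩ := hPne
  have hA1 : (1 : ℝ) ≤ A := by
    have h3 := (hP p0 hp0).1.one_lt
    have h4 := (hP p0 hp0).2.1
    exact_mod_cast (by omega : 1 ≤ A)
  have hPc : (1 : ℝ) ≤ P.card := by
    exact_mod_cast Finset.card_pos.2 ⟨p0, hp0⟩
  -- the boundary
  set Bd : ℝ := (2 + 65 * (C1 + C2)) * (B * √(A * T) + B ^ 2 * A) with hBd
  have hbd : ∀ p ∈ P, ∀ b ∈ range B, |∑ z ∈ EB T, f (z + 8 * (b * a p)) - S| ≤ Bd := by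
    intro p hp b hb
    obtain ⟨hp1, hp2, hp3, -⟩ := hP p hp
    have hb' := mem_range.1 hb
    have hw : nm (8 * ((b : E) * a p)) = 64 * (b ^ 2 * p) := by
      rw [nm_mul, nm_mul, nm_eight, nm_nat, hp3]
    have hwle : ((nm (8 * ((b : E) * a p)) : ℕ) : ℝ) ≤ 64 * (B ^ 2 * A) := by
      rw [hw]
      have h3 : b ^ 2 * p ≤ B ^ 2 * A := Nat.mul_le_mul (Nat.pow_le_pow_left hb'.le 2) hp2
      exact_mod_cast Nat.mul_le_mul_left 64 h3
    have hsq : √((T : ℝ) * (nm (8 * ((b : E) * a p)) : ℕ)) ≤ 8 * (B * √(A * T)) := by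
      calc √((T : ℝ) * (nm (8 * ((b : E) * a p)) : ℕ)) ≤ √((8 * B) ^ 2 * (A * T)) := by
            apply Real.sqrt_le_sqrt
            calc (T : ℝ) * (nm (8 * ((b : E) * a p)) : ℕ) ≤ T * (64 * (B ^ 2 * A)) :=
                  mul_le_mul_of_nonneg_left hwle (by positivity)
              _ = (8 * B) ^ 2 * (A * T) := by ring
        _ = 8 * (B * √(A * T)) := by
            rw [Real.sqrt_mul (by positivity), Real.sqrt_sq (by positivity)]
            ring
    have h3 := shift_sum f hf T (8 * ((b : E) * a p))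
    have h4 := h1 T (8 * ((b : E) * a p))
    have h5 := h2 T (8 * ((b : E) * a p))
    have hBA : (1 : ℝ) ≤ B ^ 2 * A := by nlinarith [mul_le_mul hB1 hB1 (by norm_num) (by positivity)]
    have h6 : √((T : ℝ) * (nm (8 * ((b : E) * a p)) : ℕ)) +
        ((nm (8 * ((b : E) * a p)) : ℕ) : ℝ) + 1 ≤ 65 * (B * √(A * T) + B ^ 2 * A) := by
      have h7 : 0 ≤ (B : ℝ) * √(A * T) := by positivity
      linarith
    have h8 := mul_le_mul_of_nonneg_left h6 hC1.le
    have h9 := mul_le_mul_of_nonneg_left h6 hC2.le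
    have h10 : 0 ≤ (B : ℝ) * √(A * T) := by positivity
    calc _ ≤ _ := h3
      _ ≤ 2 * (B * √(A * T) + B ^ 2 * A) + C1 * (65 * (B * √(A * T) + B ^ 2 * A)) +
          C2 * (65 * (B * √(A * T) + B ^ 2 * A)) := by linarith
      _ = Bd := by rw [hBd]; ring
  -- the shifted sums
  have hsh : ∀ p ∈ P, ∀ b : ℕ, ∀ z : E, f (z + 8 * (b * a p)) =
      ψ z * X (Φ (8 * a p)) * X (v p * Φ z + b) := by
    intro p hp b z
    have e1 : Φ (z + 8 * (b * a p)) = Φ (8 * a p) * (v p * Φ z + b) := by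
      have e2 : Φ (8 * a p) * (v p * Φ z + b) = (Φ (8 * a p) * v p) * Φ z + Φ (8 * a p) * b := by
        ring
      rw [e2, hv p hp, one_mul, map_add]
      congr 1
      rw [← map_natCast Φ b, ← map_mul]
      congr 1
      ring
    rw [hfdef]
    simp only
    rw [hψ, e1, hXm]
    ring
  set F : ℝ := ∑ p ∈ P, ∑ z ∈ EB T, G (v p * Φ z) with hFdef
  have hF : |∑ p ∈ P, ∑ b ∈ range B, ∑ z ∈ EB T, f (z + 8 * (b * a p))| ≤ F := by
    refine (abs_sum_le_sum_abs _ _).trans (sum_le_sum fun p hp => ?_)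
    rw [sum_comm]
    refine (abs_sum_le_sum_abs _ _).trans (sum_le_sum fun z _ => ?_)
    rw [sum_congr rfl (fun b _ => hsh p hp b z), ← mul_sum, abs_mul, abs_mul]
    have h3 : |ψ z| * |X (Φ (8 * a p))| ≤ 1 := mul_le_one₀ (hψ1 z) (abs_nonneg _) (hX1 _)
    calc _ ≤ 1 * |∑ b ∈ range B, X (v p * Φ z + b)| :=
          mul_le_mul_of_nonneg_right h3 (abs_nonneg _)
      _ = _ := one_mul _
  have hDS : (P.card * B : ℝ) * |S| ≤ (P.card * B : ℝ) * Bd + F := by
    have e1 : (P.card * B : ℝ) * S = ∑ _p ∈ P, ∑ _b ∈ range B, S := by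
      simp only [sum_const, card_range, nsmul_eq_mul]
      ring
    have e2 : |∑ p ∈ P, ∑ b ∈ range B, ∑ z ∈ EB T, f (z + 8 * (b * a p)) -
        (P.card * B : ℝ) * S| ≤ (P.card * B : ℝ) * Bd := by
      rw [e1, ← sum_sub_distrib]
      refine (abs_sum_le_sum_abs _ _).trans ?_
      calc _ ≤ ∑ _p ∈ P, (B : ℝ) * Bd := by
            refine sum_le_sum fun p hp => ?_
            rw [← sum_sub_distrib]
            refine (abs_sum_le_sum_abs _ _).trans ?_
            calc _ ≤ ∑ _b ∈ range B, Bd := sum_le_sum fun b hb => hbd p hp b hb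
              _ = B * Bd := by rw [sum_const, card_range, nsmul_eq_mul]
        _ = _ := by rw [sum_const, nsmul_eq_mul]; ring
    have e3 : |(P.card * B : ℝ) * S| = (P.card * B : ℝ) * |S| := by
      rw [abs_mul, abs_of_nonneg (by positivity)]
    rw [← e3]
    have e4 := abs_sub_abs_le_abs_sub ((P.card * B : ℝ) * S)
      (∑ p ∈ P, ∑ b ∈ range B, ∑ z ∈ EB T, f (z + 8 * (b * a p)))
    rw [abs_sub_comm] at e4
    linarith
  -- Hölder
  set ν : R → ℝ := fun x => (((P ×ˢ EB T).filter fun y => v y.1 * Φ y.2 = x).card : ℝ) with hν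
  have hν0 : ∀ x, 0 ≤ ν x := fun x => Nat.cast_nonneg _
  have eF : F = ∑ x : R, ν x * G x := by
    rw [hFdef, ← sum_product (s := P) (t := EB T) (f := fun y => G (v y.1 * Φ y.2))]
    exact sum_fib (P ×ˢ EB T) (fun y => v y.1 * Φ y.2) G
  have hν1 : ∑ x : R, ν x ≤ 12 * (P.card * T) := by
    have e1 : ∑ x : R, ν x = ((P ×ˢ EB T).card : ℝ) := by
      have := sum_fib (P ×ˢ EB T) (fun y => v y.1 * Φ y.2) (fun _ : R => (1 : ℝ))
      simp only [mul_one, sum_const, nsmul_eq_mul] at this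
      exact this.symm
    rw [e1, card_product]
    push_cast
    have := hE.1 T
    nlinarith
  have hν2 : ∑ x : R, ν x ^ 2 ≤ 36 * (P.card * T) := by
    have := second_moment hE Φ q hΦ P a A T hP hAT v hv
    calc _ ≤ _ := this
      _ = _ := by ring
  have hF2 : F ^ (2 * r) ≤ (36 * (P.card * T) : ℝ) ^ (2 * r - 1) * M := by
    rw [eF]
    refine (hol r hr ν G hν0 hG0).trans ?_
    refine mul_le_mul_of_nonneg_right ?_ hM0
    have hPT : (0 : ℝ) ≤ P.card * T := by positivity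
    calc (∑ x, ν x) ^ (2 * r - 2) * ∑ x, ν x ^ 2
        ≤ (36 * (P.card * T) : ℝ) ^ (2 * r - 2) * (36 * (P.card * T)) := by
          refine mul_le_mul ?_ hν2 (sum_nonneg fun x _ => sq_nonneg _) (by positivity)
          refine pow_le_pow_left₀ (sum_nonneg fun x _ => hν0 x) ?_ _
          linarith
      _ = _ := by
          rw [← pow_succ]
          congr 1
          omega
  -- the root
  set D : ℝ := P.card * B with hD
  have hD0 : 0 < D := by positivity
  have hF0 : 0 ≤ F := by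
    rw [eF]
    exact sum_nonneg fun x _ => mul_nonneg (hν0 x) (hG0 x)
  set Q : ℝ := M / (B ^ (2 * r) * (P.card * T)) with hQ
  have hQ0 : 0 ≤ Q := by positivity
  have hY : (Q ^ (1 / (2 * r : ℝ))) ^ (2 * r) = Q := by
    rw [← Real.rpow_natCast, ← Real.rpow_mul hQ0]
    have : (1 / (2 * r : ℝ)) * ((2 * r : ℕ) : ℝ) = 1 := by
      push_cast
      have hr' : (r : ℝ) ≠ 0 := by
        have : 0 < r := by omega
        exact_mod_cast this.ne'
      field_simp
    rw [this, Real.rpow_one]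
  have hfin : F / D ≤ 36 * T * Q ^ (1 / (2 * r : ℝ)) := by
    have hY0 : 0 ≤ 36 * (T : ℝ) * Q ^ (1 / (2 * r : ℝ)) :=
      mul_nonneg (by positivity) (Real.rpow_nonneg hQ0 _)
    rw [← pow_le_pow_iff_left₀ (div_nonneg hF0 hD0.le) hY0 (show 2 * r ≠ 0 by omega)]
    have e0 : (36 * (T : ℝ) * Q ^ (1 / (2 * r : ℝ))) ^ (2 * r) = (36 * (T : ℝ)) ^ (2 * r) * Q := by
      rw [mul_pow, hY]
    rw [div_pow, e0, div_le_iff₀ (pow_pos hD0 _)]
    refine hF2.trans ?_
    have hPT : (0 : ℝ) < P.card * T := by positivity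
    have e1 : (36 * (T : ℝ)) ^ (2 * r) * Q * D ^ (2 * r) =
        (36 * (P.card * T) : ℝ) ^ (2 * r) * M / (P.card * T) := by
      rw [hQ, hD]
      field_simp
      simp only [mul_pow]
      ring
    have e2 : (36 * (P.card * T) : ℝ) ^ (2 * r) =
        (36 * (P.card * T) : ℝ) ^ (2 * r - 1) * (36 * (P.card * T)) := by
      rw [← pow_succ]
      congr 1
      omega
    rw [e1, e2]
    have e3 : (36 * (P.card * T) : ℝ) ^ (2 * r - 1) * (36 * (P.card * T)) * M / (P.card * T) =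
        36 * ((36 * (P.card * T) : ℝ) ^ (2 * r - 1) * M) := by
      field_simp
    rw [e3]
    have e4 : 0 ≤ (36 * (P.card * T) : ℝ) ^ (2 * r - 1) * M := by positivity
    linarith
  have hS1 : |S| ≤ Bd + F / D := by
    rw [← sub_nonneg]
    have e1 : Bd + F / D - |S| = (D * Bd + F - D * |S|) / D := by
      field_simp
    rw [e1]
    exact div_nonneg (by linarith) hD0.le
  have hQY : 0 ≤ Q ^ (1 / (2 * r : ℝ)) := Real.rpow_nonneg hQ0 _
  have hX0 : 0 ≤ (B : ℝ) * √(A * T) + B ^ 2 * A := by positivity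
  calc |S| ≤ Bd + F / D := hS1
    _ ≤ (2 + 65 * (C1 + C2)) * (B * √(A * T) + B ^ 2 * A) + 36 * T * Q ^ (1 / (2 * r : ℝ)) := by
        linarith
    _ ≤ (2 + 65 * (C1 + C2) + 36) * (B * √(A * T) + B ^ 2 * A) +
        (2 + 65 * (C1 + C2) + 36) * T * Q ^ (1 / (2 * r : ℝ)) := by
        have e1 : 36 * (T : ℝ) * Q ^ (1 / (2 * r : ℝ)) ≤
            (2 + 65 * (C1 + C2) + 36) * T * Q ^ (1 / (2 * r : ℝ)) := by
          refine mul_le_mul_of_nonneg_right ?_ hQY
          refine mul_le_mul_of_nonneg_right ?_ (Nat.cast_nonneg T)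
          have : 0 < 65 * (C1 + C2) := by positivity
          linarith
        have e2 : (2 + 65 * (C1 + C2)) * (B * √(A * T) + B ^ 2 * A) ≤
            (2 + 65 * (C1 + C2) + 36) * (B * √(A * T) + B ^ 2 * A) :=
          mul_le_mul_of_nonneg_right (by linarith) hX0
        linarith

end Pool.Agent.K1H43.Q3
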